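import Mathlib

set_option autoImplicit false

namespace Pool.Agent.Results.MP_b44c21_co.Bip

open Finset SimpleGraph Classical

variable {V : Type} [Fintype V]

/-- eccentricity -/
noncomputable def ecc (G : SimpleGraph V) (v : V) : ℕ := univ.sup (G.dist v)

/-- the largest independence number of an open neighbourhood -/
noncomputable def locInd (G : SimpleGraph V) : ℕ :=
  univ.sup fun v => (G.induce (G.neighborSet v)).indepNum

lemma build {G : SimpleGraph V} (hG : G.Connected) (v x : V) : ∃ S : Finset V,
    (G.induce S).Colorable 2 ∧ (G.induce (G.neighborSet v)).indepNum + ecc G x +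
      (if x = v then 1 else 0) ≤ S.card + 1 := by
  obtain ⟨y, -, hy⟩ := exists_mem_eq_sup univ ⟨v, mem_univ v⟩ (G.dist x)
  obtain ⟨p, hp⟩ := hG.exists_walk_length_eq_dist x y
  obtain ⟨I, hI⟩ := exists_isNIndepSet_indepNum (G := G.induce (G.neighborSet v))
  have h1 : ∀ a b, G.Adj a b → G.dist x b ≤ G.dist x a + 1 := fun a b h =>
    (hG.dist_triangle (v := a)).trans (by rw [dist_eq_one_iff_adj.2 h])
  have h2 : ∀ i ≤ p.length, G.dist x (p.getVert i) = i := fun i hi => by
    have a1 := dist_le (p.take i)
    have a2 := dist_le (p.drop i)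
    have := hG.dist_triangle (u := x) (v := p.getVert i) (w := y)
    simp only [Walk.take_length, Walk.drop_length] at a1 a2
    omega
  let J := (range (p.length + 1) \ {G.dist x v - 1, G.dist x v, G.dist x v + 1}).image p.getVert
  have hJ : ∀ a ∈ J, G.dist x a + 1 < G.dist x v ∨ G.dist x v + 1 < G.dist x a := fun a ha => by
    obtain ⟨i, hi, rfl⟩ := mem_image.1 ha
    simp only [mem_sdiff, mem_range, mem_insert, mem_singleton] at hi
    rw [h2 i (by omega)]; omega
  have hJ' : ∀ a ∈ J, ∀ b ∈ J, G.dist x a = G.dist x b → a = b := fun a ha b hb h => by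
    obtain ⟨i, hi, rfl⟩ := mem_image.1 ha
    obtain ⟨j, hj, rfl⟩ := mem_image.1 hb
    simp only [mem_sdiff, mem_range] at hi hj
    rw [h2 i (by omega), h2 j (by omega)] at h
    rw [h]
  have hN : ∀ a ∈ I.map (.subtype _), G.Adj v a := fun a ha => by
    obtain ⟨b, -, rfl⟩ := mem_map.1 ha; exact b.2
  refine ⟨insert v (I.map (.subtype _) ∪ J), ⟨Coloring.mk (fun a => if G.Adj v a then 1 else
    ⟨(G.dist x a + G.dist x v) % 2, Nat.mod_lt _ two_pos⟩) ?_⟩, ?_⟩
  · rintro ⟨a, ha⟩ ⟨b, hb⟩ h
    have a1 : ∀ a ∈ I.map (.subtype _), ∀ b ∈ I.map (.subtype _), ¬ G.Adj a b := fun a ha b hb h => by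
      obtain ⟨a, ha', rfl⟩ := mem_map.1 ha
      obtain ⟨b, hb', rfl⟩ := mem_map.1 hb
      exact hI.1 ha' hb' (fun h' => h.ne (congrArg _ h')) h
    replace h : G.Adj a b := h
    have := h1 a b h; have := h1 b a h.symm; have := h1 v a; have := h1 v b
    have := fun h : G.Adj v a => h1 a v h.symm; have := fun h : G.Adj v b => h1 b v h.symm
    have := hJ a; have := hJ b; have := hJ' a; have := hN a; have := hN b; have := a1 a
    have := h.ne; have := h.symm; have := G.irrefl (v := v)
    simp only [coe_insert, coe_union, Set.mem_insert_iff, Set.mem_union, mem_coe] at ha hb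
    simp only [ne_eq, Fin.ext_iff, apply_ite Fin.val, Fin.val_one]
    grind
  · rw [card_insert_of_notMem, card_union_of_disjoint, card_map, hI.2, card_image_of_injOn, ecc, hy]
    · have := le_card_sdiff {G.dist x v - 1, G.dist x v, G.dist x v + 1} (range (p.length + 1))
      rw [card_range] at this
      split_ifs with h
      · simp [h] at this hp ⊢; omega
      · have := card_le_three (a := G.dist x v - 1) (b := G.dist x v) (c := G.dist x v + 1); omega
    · intro i hi j hj h
      simp only [coe_sdiff, coe_range, Set.mem_diff, Set.mem_Iio] at hi hj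
      rw [← h2 i (by omega), h, h2 j (by omega)]
    · refine disjoint_left.2 fun a h3 h4 => ?_
      have := hJ a h4; have := h1 _ _ (hN a h3); have := h1 _ _ (hN a h3).symm; omega
    · rw [mem_union]
      exact fun h => h.elim (fun h => (hN v h).ne rfl) fun h => by have := hJ v h; omega

theorem result (V : Type) [Fintype V] (G : SimpleGraph V) (hG : G.Connected) :
    ∃ S : Finset V, (G.induce S).Colorable 2 ∧
      ⌊(∑ v, (ecc G v : ℚ)) / Fintype.card V + locInd G⌋ ≤ S.card := by
  have := hG.nonempty
  obtain ⟨v, -, hv⟩ := exists_mem_eq_sup univ univ_nonempty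
    fun v => (G.induce (G.neighborSet v)).indepNum
  obtain ⟨x, -, hx⟩ := exists_max_image univ (ecc G) univ_nonempty
  have h0 : (0 : ℚ) < Fintype.card V := by simpa using Fintype.card_pos
  rw [locInd, hv]
  simp only [← Int.lt_add_one_iff, Int.floor_lt]
  by_cases h : ecc G x ≤ ecc G v
  · obtain ⟨S, h1, h2⟩ := build hG v v
    refine ⟨S, h1, ?_⟩
    have : (∑ w, (ecc G w : ℚ)) / Fintype.card V ≤ ecc G v := by
      rw [div_le_iff₀' h0, ← nsmul_eq_mul]
      exact sum_le_card_nsmul _ _ _ fun w hw => by exact_mod_cast (hx w hw).trans h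
    simp only [if_true] at h2
    have := (Nat.cast_le (α := ℚ)).2 h2
    push_cast at this ⊢; linarith
  · obtain ⟨S, h1, h2⟩ := build hG v x
    refine ⟨S, h1, ?_⟩
    have : (∑ w, (ecc G w : ℚ)) / Fintype.card V < ecc G x := by
      rw [div_lt_iff₀' h0, ← nsmul_eq_mul, ← card_univ, ← sum_const]
      exact sum_lt_sum (fun w hw => by exact_mod_cast hx w hw)
        ⟨v, mem_univ v, by exact_mod_cast not_le.1 h⟩
    have := (Nat.cast_le (α := ℚ)).2 ((Nat.le_add_right _ _).trans h2)
    push_cast at this ⊢; linarith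

end Pool.Agent.Results.MP_b44c21_co.Bip
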